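import Pool.Agent.Q107.Flip.Steiner

/-!
# The two triangulations of the chain of gadgets are face to face

No vertex of the polygon lies in a triangle of which it is not a vertex.
-/

set_option autoImplicit false

namespace Q150.FlipFF

open Pool.Agent.Q107.Flip
open Pool.Agent.Q107.Flip.Vx

variable {s : ℕ}

theorem x_range {a b c z : Pt} {lo hi : ℝ} (hz : z ∈ hull {a, b, c})
    (ha : lo ≤ a.1) (hb : lo ≤ b.1) (hc : lo ≤ c.1)
    (ha' : a.1 ≤ hi) (hb' : b.1 ≤ hi) (hc' : c.1 ≤ hi) : lo ≤ z.1 ∧ z.1 ≤ hi := by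
  rw [hull_triple, mem_hull3] at hz
  obtain ⟨α, β, γ, hα, hβ, hγ, hsum, e1, -⟩ := hz
  rw [e1]
  constructor
  · have : lo = α * lo + β * lo + γ * lo := by rw [← add_mul, ← add_mul, hsum, one_mul]
    rw [this]
    gcongr
  · have : hi = α * hi + β * hi + γ * hi := by rw [← add_mul, ← add_mul, hsum, one_mul]
    rw [this]
    gcongr

theorem y_range {a b c z : Pt} {lo hi : ℝ} (hz : z ∈ hull {a, b, c})
    (ha : lo ≤ a.2) (hb : lo ≤ b.2) (hc : lo ≤ c.2)
    (ha' : a.2 ≤ hi) (hb' : b.2 ≤ hi) (hc' : c.2 ≤ hi) : lo ≤ z.2 ∧ z.2 ≤ hi := by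
  rw [hull_triple, mem_hull3] at hz
  obtain ⟨α, β, γ, hα, hβ, hγ, hsum, -, e1⟩ := hz
  rw [e1]
  constructor
  · have : lo = α * lo + β * lo + γ * lo := by rw [← add_mul, ← add_mul, hsum, one_mul]
    rw [this]
    gcongr
  · have : hi = α * hi + β * hi + γ * hi := by rw [← add_mul, ← add_mul, hsum, one_mul]
    rw [this]
    gcongr

theorem det_A (g : ℕ) {i i' j : ℕ} (h : i < i') (hi : i' ≤ s) (hj : j ≤ s) :
    0 < det (pos s (U g i)) (pos s (L g j)) (pos s (U g i')) := by
  obtain ⟨d, rfl⟩ : ∃ d, i' = i + d := ⟨i' - i, by omega⟩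
  obtain ⟨r, rfl⟩ : ∃ r, s = i + d + r := ⟨s - (i + d), by omega⟩
  have hd : 0 < d := by omega
  have e : det (pos (i + d + r) (U g i)) (pos (i + d + r) (L g j))
      (pos (i + d + r) (U g (i + d))) =
      (d : ℝ) * (2 * hgt (i + d + r) + (j : ℝ) ^ 2 + j - ((r : ℝ) + d + 1) * (r + 1)
        - j * ((r : ℝ) + d + r + 1)) := by
    simp only [det, pos, xn, yv]
    push_cast
    ring
  rw [e, hgt_eq]
  have h1 : (j : ℝ) ≤ i + d + r := by exact_mod_cast hj
  have h2 : (0 : ℝ) ≤ i := Nat.cast_nonneg i
  have h3 : (0 : ℝ) ≤ r := Nat.cast_nonneg r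
  have h4 : (0 : ℝ) ≤ j := Nat.cast_nonneg j
  have h5 : (0 : ℝ) < d := by exact_mod_cast hd
  refine mul_pos h5 ?_
  push_cast
  have k1 : ((r : ℝ) + d + 1) * (r + 1) ≤ ((i : ℝ) + d + r + 1) * ((i : ℝ) + d + r + 1) :=
    mul_le_mul (by linarith) (by linarith) (by positivity) (by positivity)
  have k2 : (j : ℝ) * ((r : ℝ) + d + r + 1) ≤ ((i : ℝ) + d + r + 1) * (2 * ((i : ℝ) + d + r + 1)) :=
    mul_le_mul (by linarith) (by linarith) (by positivity) (by positivity)
  have k3 : (0 : ℝ) < ((i : ℝ) + d + r + 1) ^ 2 := by positivity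
  nlinarith [sq_nonneg (j : ℝ)]

theorem det_B (g : ℕ) {i j j' : ℕ} (h : j' < j) (hj : j ≤ s) (hi : i ≤ s) :
    det (pos s (U g i)) (pos s (L g j)) (pos s (L g j')) < 0 := by
  obtain ⟨d, rfl⟩ : ∃ d, j = j' + d := ⟨j - j', by omega⟩
  obtain ⟨r, rfl⟩ : ∃ r, s = i + r := ⟨s - i, by omega⟩
  have hd : 0 < d := by omega
  have e : det (pos (i + r) (U g i)) (pos (i + r) (L g (j' + d)))
      (pos (i + r) (L g j')) =
      - ((d : ℝ) * (2 * hgt (i + r) + (r : ℝ) * (r + 1) - ((r : ℝ) + 1) * (j' + d + j' + 1)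
        - (j' + d) * j')) := by
    simp only [det, pos, xn, yv]
    push_cast
    ring
  rw [e, hgt_eq]
  have h1 : (j' : ℝ) + d ≤ i + r := by exact_mod_cast hj
  have h2 : (0 : ℝ) ≤ i := Nat.cast_nonneg i
  have h3 : (0 : ℝ) ≤ r := Nat.cast_nonneg r
  have h4 : (0 : ℝ) ≤ j' := Nat.cast_nonneg j'
  have h5 : (0 : ℝ) < d := by exact_mod_cast hd
  rw [neg_lt_zero]
  refine mul_pos h5 ?_
  push_cast
  have k1 : ((r : ℝ) + 1) * (j' + d + j' + 1) ≤ ((i : ℝ) + r + 1) * (2 * ((i : ℝ) + r + 1)) :=
    mul_le_mul (by linarith) (by linarith) (by positivity) (by positivity)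
  have k2 : ((j' : ℝ) + d) * j' ≤ ((i : ℝ) + r + 1) * ((i : ℝ) + r + 1) :=
    mul_le_mul (by linarith) (by linarith) (by positivity) (by positivity)
  have k3 : (0 : ℝ) < ((i : ℝ) + r + 1) ^ 2 := by positivity
  have k4 : (0 : ℝ) ≤ (r : ℝ) * (r + 1) := by positivity
  nlinarith

/-- the vertices in the strip of a gadget -/
theorem strip {g : ℕ} {v : Vx} (hv : Valid s v) (h1 : g * wid s ≤ xn s v)
    (h2 : xn s v ≤ g * wid s + wid s + 1) :
    v = C g ∨ v = D g ∨ (∃ i, i ≤ s ∧ v = U g i) ∨ (∃ j, j ≤ s ∧ v = L g j) ∨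
      v = C (g + 1) ∨ v = D (g + 1) := by
  have hw : wid s = 2 * s + 4 := rfl
  have key : ∀ g' r : ℕ, r < wid s → g * wid s ≤ g' * wid s + r →
      g' * wid s + r ≤ g * wid s + wid s + 1 → g' = g ∨ (g' = g + 1 ∧ r ≤ 1) := by
    intro g' r hr k1 k2
    rcases Nat.lt_trichotomy g' g with h | h | h
    · have := Nat.mul_le_mul_right (wid s) (show g' + 1 ≤ g from h)
      rw [Nat.add_mul, one_mul] at this
      omega
    · exact Or.inl h
    · rcases Nat.lt_or_ge (g + 1) g' with h' | h'
      · have := Nat.mul_le_mul_right (wid s) (show g + 2 ≤ g' from h')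
        rw [Nat.add_mul] at this
        omega
      · have h0 : g' = g + 1 := by omega
        subst h0
        rw [Nat.add_mul, one_mul] at k2
        exact Or.inr ⟨rfl, by omega⟩
  cases v with
  | C g' =>
    simp only [xn] at h1 h2
    rcases key g' 0 (by omega) (by omega) (by omega) with rfl | ⟨rfl, -⟩
    · exact Or.inl rfl
    · exact Or.inr (Or.inr (Or.inr (Or.inr (Or.inl rfl))))
  | D g' =>
    simp only [xn] at h1 h2
    rcases key g' 1 (by omega) (by omega) (by omega) with rfl | ⟨rfl, -⟩
    · exact Or.inr (Or.inl rfl)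
    · exact Or.inr (Or.inr (Or.inr (Or.inr (Or.inr rfl))))
  | U g' i =>
    have hi : i ≤ s := hv
    simp only [xn] at h1 h2
    rcases key g' (2 + i) (by omega) (by omega) (by omega) with rfl | ⟨rfl, h⟩
    · exact Or.inr (Or.inr (Or.inl ⟨i, hi, rfl⟩))
    · omega
  | L g' j =>
    have hj : j ≤ s := hv
    simp only [xn] at h1 h2
    rcases key g' (s + 3 + j) (by omega) (by omega) (by omega) with rfl | ⟨rfl, h⟩
    · exact Or.inr (Or.inr (Or.inr (Or.inl ⟨j, hj, rfl⟩)))
    · omega

/-- the range of the first coordinates in terms of the natural numbers `xn` -/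
theorem xn_range {a b c v : Vx} {lo hi : ℕ} (hz : pos s v ∈ hull {pos s a, pos s b, pos s c})
    (ha : lo ≤ xn s a) (hb : lo ≤ xn s b) (hc : lo ≤ xn s c)
    (ha' : xn s a ≤ hi) (hb' : xn s b ≤ hi) (hc' : xn s c ≤ hi) :
    lo ≤ xn s v ∧ xn s v ≤ hi := by
  have h := x_range (lo := (lo : ℝ)) (hi := (hi : ℝ)) hz
    (by simp only [pos]; exact_mod_cast ha) (by simp only [pos]; exact_mod_cast hb)
    (by simp only [pos]; exact_mod_cast hc) (by simp only [pos]; exact_mod_cast ha')
    (by simp only [pos]; exact_mod_cast hb') (by simp only [pos]; exact_mod_cast hc')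
  simp only [pos] at h
  exact_mod_cast h

theorem ff_tri1 {g : ℕ} {v : Vx} (hv : Valid s v) (hz : pos s v ∈ hull (tri1 s g)) :
    pos s v ∈ tri1 s g := by
  have hw : wid s = 2 * s + 4 := rfl
  have hx := xn_range (lo := g * wid s) (hi := g * wid s + (s + 3)) hz
    (by simp only [xn]; omega) (by simp only [xn]; omega) (by simp only [xn]; omega)
    (by simp only [xn]; omega) (by simp only [xn]; omega) (by simp only [xn]; omega)
  rcases strip (g := g) hv (by omega) (by omega) with
    rfl | rfl | ⟨i, hi, rfl⟩ | ⟨j, hj, rfl⟩ | rfl | rfl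
  · simp [tri1]
  · simp [tri1]
  · exfalso
    have hy := y_range (lo := (g : ℝ) * (2 * hgt s + 1) - hgt s - 1)
      (hi := (g : ℝ) * (2 * hgt s + 1) - hgt s) hz
      (by simp only [pos, yv]; linarith) (by simp only [pos, yv]; linarith)
      (by simp only [pos, yv]; push_cast; linarith)
      (by simp only [pos, yv]; linarith) (by simp only [pos, yv]; linarith)
      (by simp only [pos, yv]; push_cast; linarith)
    have h1 := hy.2
    simp only [pos, yv] at h1
    have h2 := hgt_pos (s := s)
    have h3 : (0 : ℝ) ≤ (s : ℝ) - i := by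
      have : (i : ℝ) ≤ s := by exact_mod_cast hi
      linarith
    have h4 : 0 ≤ ((s : ℝ) - i) * ((s : ℝ) - i + 1) := by positivity
    linarith
  · simp only [xn] at hx
    have h0 : j = 0 := by omega
    subst h0
    simp [tri1]
  · exfalso
    simp only [xn, Nat.add_mul, one_mul] at hx
    omega
  · exfalso
    simp only [xn, Nat.add_mul, one_mul] at hx
    omega

theorem ff_tri3 {g : ℕ} {v : Vx} (hv : Valid s v) (hz : pos s v ∈ hull (tri3 s g)) :
    pos s v ∈ tri3 s g := by
  have hw : wid s = 2 * s + 4 := rfl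
  have hx := xn_range (lo := g * wid s + (s + 2)) (hi := g * wid s + (wid s + 1)) hz
    (by simp only [xn]; omega) (by simp only [xn, Nat.add_mul, one_mul]; omega)
    (by simp only [xn, Nat.add_mul, one_mul]; omega)
    (by simp only [xn]; omega) (by simp only [xn, Nat.add_mul, one_mul]; omega)
    (by simp only [xn, Nat.add_mul, one_mul]; omega)
  rcases strip (g := g) hv (by omega) (by omega) with
    rfl | rfl | ⟨i, hi, rfl⟩ | ⟨j, hj, rfl⟩ | rfl | rfl
  · exfalso
    simp only [xn] at hx
    omega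
  · exfalso
    simp only [xn] at hx
    omega
  · simp only [xn] at hx
    have h0 : i = s := by omega
    subst h0
    simp [tri3]
  · exfalso
    have hy := y_range (lo := (g : ℝ) * (2 * hgt s + 1) + hgt s)
      (hi := (g : ℝ) * (2 * hgt s + 1) + hgt s + 1) hz
      (by simp only [pos, yv]; linarith) (by simp only [pos, yv]; push_cast; linarith)
      (by simp only [pos, yv]; push_cast; linarith)
      (by simp only [pos, yv]; linarith) (by simp only [pos, yv]; push_cast; linarith)
      (by simp only [pos, yv]; push_cast; linarith)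
    have h1 := hy.1
    simp only [pos, yv] at h1
    have h2 := hgt_pos (s := s)
    have h4 : 0 ≤ (j : ℝ) * (j + 1) := by positivity
    linarith
  · simp [tri3]
  · simp [tri3]

theorem ff_triD {g : ℕ} {v : Vx} (hv : Valid s v) (hz : pos s v ∈ hull (triD s g)) :
    pos s v ∈ triD s g := by
  have hw : wid s = 2 * s + 4 := rfl
  have hx := xn_range (lo := g * wid s + 1) (hi := g * wid s + (s + 3)) hz
    (by simp only [xn]; omega) (by simp only [xn]; omega) (by simp only [xn]; omega)
    (by simp only [xn]; omega) (by simp only [xn]; omega) (by simp only [xn]; omega)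
  rcases strip (g := g) hv (by omega) (by omega) with
    rfl | rfl | ⟨i, hi, rfl⟩ | ⟨j, hj, rfl⟩ | rfl | rfl
  · exfalso
    simp only [xn] at hx
    omega
  · simp [triD]
  · rcases Nat.eq_zero_or_pos i with rfl | hi0
    · simp [triD]
    · exfalso
      have e : triD s g = {pos s (D g), pos s (L g 0), pos s (U g 0)} := by
        rw [triD]
        ext x
        simp only [Finset.mem_insert, Finset.mem_singleton]
        tauto
      rw [e] at hz
      have h1 := ((mem_hull_iff (det_DLU g)).1 hz).2.1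
      have h2 := det_A g hi0 hi (Nat.zero_le s)
      rw [det_swap] at h1
      linarith
  · simp only [xn] at hx
    have h0 : j = 0 := by omega
    subst h0
    simp [triD]
  · exfalso
    simp only [xn, Nat.add_mul, one_mul] at hx
    omega
  · exfalso
    simp only [xn, Nat.add_mul, one_mul] at hx
    omega

theorem ff_triC {g : ℕ} {v : Vx} (hv : Valid s v) (hz : pos s v ∈ hull (triC s g)) :
    pos s v ∈ triC s g := by
  have hw : wid s = 2 * s + 4 := rfl
  have hx := xn_range (lo := g * wid s + (s + 2)) (hi := g * wid s + wid s) hz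
    (by simp only [xn]; omega) (by simp only [xn]; omega)
    (by simp only [xn, Nat.add_mul, one_mul]; omega)
    (by simp only [xn]; omega) (by simp only [xn]; omega)
    (by simp only [xn, Nat.add_mul, one_mul]; omega)
  rcases strip (g := g) hv (by omega) (by omega) with
    rfl | rfl | ⟨i, hi, rfl⟩ | ⟨j, hj, rfl⟩ | rfl | rfl
  · exfalso
    simp only [xn] at hx
    omega
  · exfalso
    simp only [xn] at hx
    omega
  · simp only [xn] at hx
    have h0 : i = s := by omega
    subst h0
    simp [triC]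
  · rcases Nat.eq_or_lt_of_le hj with rfl | hj0
    · simp [triC]
    · exfalso
      have k : 0 < det (pos s (U g s)) (pos s (L g s)) (pos s (C (g + 1))) := by
        have := det_UCL (s := s) g
        rw [det_swap'] at this
        linarith
      rw [triC] at hz
      have h1 := ((mem_hull_iff k).1 hz).1
      have h2 := det_B g hj0 (le_refl s) (le_refl s)
      linarith
  · simp [triC]
  · exfalso
    simp only [xn, Nat.add_mul, one_mul] at hx
    omega

theorem ff_triU {g i j : ℕ} (hi : i < s) (hj : j ≤ s) {v : Vx} (hv : Valid s v)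
    (hz : pos s v ∈ hull (triU s g i j)) : pos s v ∈ triU s g i j := by
  have hw : wid s = 2 * s + 4 := rfl
  have hx := xn_range (lo := g * wid s + (2 + i)) (hi := g * wid s + (s + 3 + j)) hz
    (by simp only [xn]; omega) (by simp only [xn]; omega) (by simp only [xn]; omega)
    (by simp only [xn]; omega) (by simp only [xn]; omega) (by simp only [xn]; omega)
  have e : triU s g i j = {pos s (U g i), pos s (L g j), pos s (U g (i + 1))} := by
    rw [triU]
    ext x
    simp only [Finset.mem_insert, Finset.mem_singleton]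
    tauto
  have hz' := hz
  rw [e] at hz'
  have hm := (mem_hull_iff (det_ULU g hi hj)).1 hz'
  rcases strip (g := g) hv (by omega) (by omega) with
    rfl | rfl | ⟨i', hi', rfl⟩ | ⟨j', hj', rfl⟩ | rfl | rfl
  · exfalso
    simp only [xn] at hx
    omega
  · exfalso
    simp only [xn] at hx
    omega
  · simp only [xn] at hx
    rcases Nat.lt_or_ge (i + 1) i' with h | h
    · exfalso
      have h1 := hm.2.1
      have h2 := det_A g h hi' hj
      rw [det_swap] at h1
      linarith
    · have h0 : i' = i ∨ i' = i + 1 := by omega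
      rcases h0 with rfl | rfl
      · simp [triU]
      · simp [triU]
  · simp only [xn] at hx
    rcases Nat.lt_or_ge j' j with h | h
    · exfalso
      have h1 := hm.1
      have h2 := det_B g h hj hi.le
      linarith
    · have h0 : j' = j := by omega
      subst h0
      simp [triU]
  · exfalso
    simp only [xn, Nat.add_mul, one_mul] at hx
    omega
  · exfalso
    simp only [xn, Nat.add_mul, one_mul] at hx
    omega

theorem ff_triL {g i j : ℕ} (hi : i ≤ s) (hj : j < s) {v : Vx} (hv : Valid s v)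
    (hz : pos s v ∈ hull (triL s g i j)) : pos s v ∈ triL s g i j := by
  have hw : wid s = 2 * s + 4 := rfl
  have hx := xn_range (lo := g * wid s + (2 + i)) (hi := g * wid s + (s + 4 + j)) hz
    (by simp only [xn]; omega) (by simp only [xn]; omega) (by simp only [xn]; omega)
    (by simp only [xn]; omega) (by simp only [xn]; omega) (by simp only [xn]; omega)
  have k : 0 < det (pos s (U g i)) (pos s (L g j)) (pos s (L g (j + 1))) := by
    have := det_ULL g hi hj
    rw [det_swap'] at this
    linarith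
  have hm := (mem_hull_iff k).1 hz
  rcases strip (g := g) hv (by omega) (by omega) with
    rfl | rfl | ⟨i', hi', rfl⟩ | ⟨j', hj', rfl⟩ | rfl | rfl
  · exfalso
    simp only [xn] at hx
    omega
  · exfalso
    simp only [xn] at hx
    omega
  · simp only [xn] at hx
    rcases Nat.lt_or_ge i i' with h | h
    · exfalso
      have h1 := hm.2.2
      have h2 := det_A g h hi' (show j + 1 ≤ s from hj)
      rw [det_swap] at h1
      linarith
    · have h0 : i' = i := by omega
      subst h0
      simp [triL]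
  · simp only [xn] at hx
    rcases Nat.lt_or_ge j' j with h | h
    · exfalso
      have h1 := hm.1
      have h2 := det_B g h hj.le hi
      linarith
    · have h0 : j' = j ∨ j' = j + 1 := by omega
      rcases h0 with rfl | rfl
      · simp [triL]
      · simp [triL]
  · exfalso
    simp only [xn, Nat.add_mul, one_mul] at hx
    omega
  · exfalso
    simp only [xn, Nat.add_mul, one_mul] at hx
    omega

/-- The first triangulation is face to face. -/
theorem ff_F {m : ℕ} : ∀ t ∈ chain s (midF s) m, ∀ x ∈ poly s m, x ∈ hull t → x ∈ t := by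
  intro t ht x hx hz
  obtain ⟨v, hv, rfl⟩ := mem_poly.1 hx
  have hv' := hv.valid
  obtain ⟨g, -, rfl | rfl | h⟩ := mem_chain.1 ht
  · exact ff_tri1 hv' hz
  · exact ff_tri3 hv' hz
  · rcases mem_midF.1 h with rfl | ⟨j, hj, rfl⟩ | ⟨i, hi, rfl⟩ | rfl
    · exact ff_triC hv' hz
    · exact ff_triL le_rfl hj hv' hz
    · exact ff_triU hi (Nat.zero_le _) hv' hz
    · exact ff_triD hv' hz

/-- The second triangulation is face to face. -/
theorem ff_Z {m : ℕ} : ∀ t ∈ chain s (midZ s) m, ∀ x ∈ poly s m, x ∈ hull t → x ∈ t := by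
  intro t ht x hx hz
  obtain ⟨v, hv, rfl⟩ := mem_poly.1 hx
  have hv' := hv.valid
  obtain ⟨g, -, rfl | rfl | h⟩ := mem_chain.1 ht
  · exact ff_tri1 hv' hz
  · exact ff_tri3 hv' hz
  · rcases mem_midZ.1 h with rfl | ⟨i, hi, rfl⟩ | ⟨j, hj, rfl⟩ | rfl
    · exact ff_triC hv' hz
    · exact ff_triU hi le_rfl hv' hz
    · exact ff_triL (Nat.zero_le _) hj hv' hz
    · exact ff_triD hv' hz

end Q150.FlipFF
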