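import Pool.Agent.Q150.FlipFF.FF

/-!
# Few Steiner points do not make the flip distance linear: face to face version

The same as `Pool.Agent.Results.MP_fe41f2_co.FewSteinerPoints`, with the additional information that
the two triangulations are face to face.
-/

set_option autoImplicit false

namespace Q150.FlipFF

open Pool.Agent.Q107.Flip Filter Topology

/-- The set `T` of triangles is face to face with respect to `S`: no point of `S` lies in a
triangle of `T` without being one of its vertices. -/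
def FaceToFace (S : Finset Pt) (T : Finset (Finset Pt)) : Prop :=
  ∀ t ∈ T, ∀ x ∈ S, x ∈ hull t → x ∈ t

theorem faceToFace_F {s m : ℕ} : FaceToFace (poly s m).toFinset (chain s (midF s) m) :=
  fun t ht x hx hz => ff_F t ht x (List.mem_toFinset.1 hx) hz

theorem faceToFace_Z {s m : ℕ} : FaceToFace (poly s m).toFinset (chain s (midZ s) m) :=
  fun t ht x hx hz => ff_Z t ht x (List.mem_toFinset.1 hx) hz

theorem linear_ff (C : ℝ) : ∃ δ : ℝ, 0 < δ ∧ ∀ n₀ : ℕ,
    ∃ (p : List Pt) (P : Set Pt) (T₁ T₂ : Finset (Finset Pt)),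
      n₀ ≤ p.length ∧ IsSimplePolygon p P ∧
      IsTriangulation P p.toFinset T₁ ∧ IsTriangulation P p.toFinset T₂ ∧
      FaceToFace p.toFinset T₁ ∧ FaceToFace p.toFinset T₂ ∧
      ∀ (q : List Pt) (T₁' T₂' : Finset (Finset Pt)), (q.length : ℝ) ≤ δ * p.length →
        InsertPoints P q T₁ T₁' → InsertPoints P q T₂ T₂' →
          ∀ N : ℕ, FlipPath N T₁' T₂' → C * p.length < N := by
  obtain ⟨s, hs⟩ := exists_nat_gt (32 * |C| + 1)
  have hC : 0 ≤ |C| := abs_nonneg C
  have hs1 : (1 : ℝ) < s := by linarith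
  set W : ℝ := 2 * s + 4 with hW
  refine ⟨1 / (2 * (W + 2)), by positivity, fun n₀ => ?_⟩
  set m := n₀ + 1 with hm
  have hm0 : 0 < m := by omega
  have hlen : ((poly s m).length : ℝ) = m * W + 2 := by
    rw [length_poly, wid, hW]
    push_cast
    ring
  have hm1 : (1 : ℝ) ≤ m := by exact_mod_cast hm0
  refine ⟨poly s m, Poly s m, chain s (midF s) m, chain s (midZ s) m, ?_,
    isSimplePolygon_poly hm0, isTriangulation_F hm0, isTriangulation_Z hm0,
    faceToFace_F, faceToFace_Z, ?_⟩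
  · rw [length_poly]
    have : m ≤ m * wid s := Nat.le_mul_of_pos_right _ wid_pos
    omega
  · intro q T₁' T₂' hq h1 h2 N hN
    have hb := lower_bound hm0 h1 h2 hN
    have hb' : (m : ℝ) * s ^ 2 ≤ N + q.length * s ^ 2 := by exact_mod_cast hb
    rw [hlen] at hq ⊢
    have hq' : (q.length : ℝ) ≤ m / 2 := by
      refine hq.trans ?_
      rw [div_mul_eq_mul_div, one_mul, div_le_div_iff₀ (by positivity) two_pos]
      nlinarith
    have h3 : (m : ℝ) * s ^ 2 / 2 ≤ N := by nlinarith [sq_nonneg (s : ℝ)]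
    have h4 : C * (m * W + 2) ≤ |C| * (m * W + 2) :=
      mul_le_mul_of_nonneg_right (le_abs_self C) (by positivity)
    have h5 : (m : ℝ) * W + 2 ≤ m * (8 * s) := by
      rw [hW]
      nlinarith
    have h6 : |C| * (m * W + 2) ≤ |C| * (m * (8 * s)) := mul_le_mul_of_nonneg_left h5 hC
    have h7 : |C| * (m * (8 * s)) < m * s ^ 2 / 2 := by
      have : 16 * |C| < s := by linarith
      have h8 : (0 : ℝ) < m * s := by positivity
      nlinarith [mul_lt_mul_of_pos_right this h8]
    linarith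

theorem result_ff :
    (∀ k : ℕ → ℕ, Tendsto (fun n => (k n : ℝ) / n) atTop (𝓝 0) → ∀ C : ℝ,
      ∃ (p : List Pt) (P : Set Pt) (T₁ T₂ : Finset (Finset Pt)), IsSimplePolygon p P ∧
        IsTriangulation P p.toFinset T₁ ∧ IsTriangulation P p.toFinset T₂ ∧
        FaceToFace p.toFinset T₁ ∧ FaceToFace p.toFinset T₂ ∧
        ∀ (q : List Pt) (T₁' T₂' : Finset (Finset Pt)), q.length ≤ k p.length →
          InsertPoints P q T₁ T₁' → InsertPoints P q T₂ T₂' →
            ∀ N : ℕ, FlipPath N T₁' T₂' → C * p.length < N) ∧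
    (∀ C : ℝ, ∃ δ : ℝ, 0 < δ ∧ ∀ n₀ : ℕ,
      ∃ (p : List Pt) (P : Set Pt) (T₁ T₂ : Finset (Finset Pt)),
        n₀ ≤ p.length ∧ IsSimplePolygon p P ∧
        IsTriangulation P p.toFinset T₁ ∧ IsTriangulation P p.toFinset T₂ ∧
        FaceToFace p.toFinset T₁ ∧ FaceToFace p.toFinset T₂ ∧
        ∀ (q : List Pt) (T₁' T₂' : Finset (Finset Pt)), (q.length : ℝ) ≤ δ * p.length →
          InsertPoints P q T₁ T₁' → InsertPoints P q T₂ T₂' →
            ∀ N : ℕ, FlipPath N T₁' T₂' → C * p.length < N) := by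
  refine ⟨fun k hk C => ?_, linear_ff⟩
  obtain ⟨δ, hδ, h⟩ := linear_ff C
  obtain ⟨n₀, hn₀⟩ := eventually_atTop.1 (hk.eventually (gt_mem_nhds hδ))
  obtain ⟨p, P, T₁, T₂, hn, hp, h1, h2, hf1, hf2, hmain⟩ := h (n₀ + 1)
  refine ⟨p, P, T₁, T₂, hp, h1, h2, hf1, hf2, fun q T₁' T₂' hq => hmain q T₁' T₂' ?_⟩
  have h3 := hn₀ p.length (by omega)
  have h4 : (0 : ℝ) < p.length := by exact_mod_cast (by omega : 0 < p.length)
  rw [div_lt_iff₀ h4] at h3
  have h5 : (q.length : ℝ) ≤ k p.length := by exact_mod_cast hq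
  linarith

end Q150.FlipFF
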